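import Pool.Agent.Helper5.GB.St

/-!
Module Crs of GB: a connected compact set joining the left side to the right side of a rectangle meets every path from the
bottom to the top.
-/

set_option autoImplicit false

namespace Pool.Agent.Helper45.GB

open Pool.Agent.Helper5.GB Set Filter Topology

theorem joined {p q r s δ : ℝ} (hδ : 0 < δ) {Γ : Set (ℝ × ℝ)} (hΓ : IsPreconnected Γ)
    (hsub : Γ ⊆ Icc p q ×ˢ Icc r s) {a a' : ℝ × ℝ} (ha : a ∈ Γ) (ha' : a' ∈ Γ) :
    JoinedIn ((Icc p q ×ˢ Icc r s) ∩ Metric.thickening δ Γ) a a' := by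
  refine hΓ.induction₂ (fun x y => JoinedIn ((Icc p q ×ˢ Icc r s) ∩ Metric.thickening δ Γ) x y)
    ?_ ?_ ?_ ha ha'
  · intro x hx
    have h1 : ∀ᶠ y in 𝓝[Γ] x, y ∈ Γ ∧ y ∈ Metric.ball x δ :=
      (eventually_mem_nhdsWithin).and (mem_nhdsWithin_of_mem_nhds (Metric.ball_mem_nhds x hδ))
    filter_upwards [h1] with y hy
    apply JoinedIn.of_segment_subset
    have hc : Convex ℝ ((Icc p q ×ˢ Icc r s) ∩ Metric.ball x δ) :=
      ((convex_Icc p q).prod (convex_Icc r s)).inter (convex_ball x δ)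
    refine (hc.segment_subset ⟨hsub hx, Metric.mem_ball_self hδ⟩ ⟨hsub hy.1, hy.2⟩).trans ?_
    refine inter_subset_inter_right _ ?_
    intro u hu
    exact Metric.mem_thickening_iff.2 ⟨x, hx, hu⟩
  · intro x y z _ _ _ h h'
    exact h.trans h'
  · intro x y _ _ h
    exact h.symm

theorem hCrs (h1 : StMir) : StCrs := by
  rintro p q r s Γ z w hpq hrs hcpt hpre hsub ⟨a, ha, hap⟩ ⟨a', ha', haq⟩ hz hw hjoin
  obtain ⟨γ, hγ⟩ := hjoin
  have hcl : IsClosed (range γ) := (isCompact_range γ.continuous).isClosed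
  have hdis : Γ ⊆ (range γ)ᶜ := by
    rintro u hu ⟨t, ht⟩
    exact (hγ t).2 (ht ▸ hu)
  obtain ⟨δ, hδ, hthick⟩ := hcpt.exists_thickening_subset_open hcl.isOpen_compl hdis
  obtain ⟨π, hπ⟩ := joined hδ hpre hsub ha ha'
  have hcπ : Continuous π.extend := π.continuous_extend
  have hcγ : Continuous γ.extend := γ.continuous_extend
  have hmπ : ∀ t, π.extend t ∈ (Icc p q ×ˢ Icc r s) ∩ Metric.thickening δ Γ := fun t => by
    exact hπ (projIcc 0 1 zero_le_one t)
  have hmγ : ∀ t, γ.extend t ∈ (Icc p q ×ˢ Icc r s) := fun t => by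
    exact (hγ (projIcc 0 1 zero_le_one t)).1
  have hc1 : Continuous (fun v : ℝ × ℝ => (π.extend v.1).1 - (γ.extend v.2).1) := by
    fun_prop
  have hc2 : Continuous (fun v : ℝ × ℝ => (γ.extend v.2).2 - (π.extend v.1).2) := by
    fun_prop
  obtain ⟨v, -, hv1, hv2⟩ := h1 0 1 0 1 _ _ zero_lt_one zero_lt_one hc1.continuousOn
    hc2.continuousOn
    (fun y _ => by
      have h := (hmγ y).1
      constructor
      · show (π.extend 0).1 - (γ.extend y).1 ≤ 0
        rw [π.extend_zero, hap]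
        linarith [h.1]
      · show 0 ≤ (π.extend 1).1 - (γ.extend y).1
        rw [π.extend_one, haq]
        linarith [h.2])
    (fun x _ => by
      have h := (hmπ x).1.2
      constructor
      · show (γ.extend 0).2 - (π.extend x).2 ≤ 0
        rw [γ.extend_zero, hz]
        linarith [h.1]
      · show 0 ≤ (γ.extend 1).2 - (π.extend x).2
        rw [γ.extend_one, hw]
        linarith [h.2])
  have heq : π.extend v.1 = γ.extend v.2 := by
    apply Prod.ext
    · exact sub_eq_zero.1 hv1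
    · exact (sub_eq_zero.1 hv2).symm
  have h2 : π.extend v.1 ∈ (range γ)ᶜ := hthick (hmπ v.1).2
  apply h2
  rw [heq]
  exact ⟨projIcc 0 1 zero_le_one v.2, rfl⟩

end Pool.Agent.Helper45.GB
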